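import Pool.Agent.D0H16.SF.Prod
import Pool.Agent.TH935.TF8

set_option autoImplicit false

/-! Systems of linear forms whose constant terms are from products of families with small one coordinate moments:
the proofs follow those of `Pool.Agent.TH935.TF6`, `TF8`. -/

namespace Pool.Agent.D0H16.SF

/-- the scale of the values -/
noncomputable def sc (D N : ℕ) : ℕ := N * ⌈Real.log N ^ (D + 2)⌉₊

section A
open Finset
open Pool.Agent.H373R2.T7
open Pool.Agent.TH935.TF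
open Pool.Agent.W93.PP (markov)
open Pool.Agent.W93.GB (vM_le)

variable {k m : ℕ} {w : ℕ → ℝ} {ν : (Fin k → ℤ) → (Fin k → ℤ) → ℕ → ℕ} {Cond : (Fin k → ℤ) → (Fin k → ℤ) → Prop}

set_option maxHeartbeats 4000000 in
theorem gg_F (hd : Dat k m w ν Cond) (𝓕 : Fin k → ℕ → ℕ → (ℕ → ℤ) → Prop) (hM : ∀ i U, Mom1 (𝓕 i) U) (D V U : ℕ) : ∃ X0 : ℕ, ∀ X : ℕ, X0 ≤ X → ∀ Y : ℕ, (Y : ℝ) * Real.log X ^ D ≤ X →
    ∀ (x : Fin k → ℕ) (s : Fin k → ℕ → ℤ), (∀ i, ∀ j ∈ Icc 1 (x i), |s i j| ≤ X) →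
    (∀ i, 𝓕 i X (x i) (s i)) →
    ∀ 𝒮 : Finset (Fin k → ℕ), 𝒮 ⊆ Fintype.piFinset (fun i => Icc 1 (x i)) →
    (∀ q ∈ 𝒮, ¬ GG k m w ν Cond V D X Y (fun i => s i (q i))) → (𝒮.card : ℝ) ≤ (∏ i, (x i : ℝ)) / Real.log X ^ U := by
  classical
  obtain ⟨U', hU'⟩ : ∃ U', U' = U + 2 * V + m + k * (D + 1) + 12 := ⟨_, rfl⟩
  obtain ⟨B0, hB0⟩ := prodF k U' 𝓕 (fun i => hM i _)
  obtain ⟨E1, hE1⟩ : ∃ E1, E1 = B0 + V + m + 8 := ⟨_, rfl⟩
  obtain ⟨n1, h1⟩ := hB0 (E1 + 1)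
  obtain ⟨X1, hdet⟩ := gg_det hd V D E1 (by omega)
  obtain ⟨n3, h3⟩ := ev_L' 10
  refine ⟨n1 + X1 + n3 + 3, fun X hX Y hY x s hs hE 𝒮 hSx hS => ?_⟩
  have c1 := h1 X (by omega) x s
  have c3 := h3 X (by omega)
  obtain ⟨L, hL⟩ : ∃ L, L = Real.log (X : ℝ) := ⟨_, rfl⟩
  rw [← hL] at c1 c3 hY ⊢
  have hL1 : 1 ≤ L := by linarith
  have hL0 : 0 < L := by linarith
  have hX3 : (3 : ℝ) ≤ X := by exact_mod_cast (by omega : 3 ≤ X)
  have hX0 : (0 : ℝ) < X := by linarith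
  have hY0 : (0 : ℝ) ≤ Y := Nat.cast_nonneg _
  have hYX : Y ≤ X := by
    have h5 : (Y : ℝ) ≤ X := (le_mul_of_one_le_right hY0 (one_le_pow₀ hL1)).trans hY
    exact_mod_cast h5
  have hprod0 : (0 : ℝ) ≤ ∏ i, (x i : ℝ) := prod_nonneg fun i _ => Nat.cast_nonneg _
  by_cases hx : ∀ i, 1 ≤ x i
  swap
  · push Not at hx
    obtain ⟨i, hi⟩ := hx
    have h5 : Fintype.piFinset (fun i => Icc 1 (x i)) = ∅ := by
      rw [Fintype.piFinset_eq_empty]
      exact ⟨i, Icc_eq_empty (by omega)⟩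
    rw [h5] at hSx
    rw [subset_empty.1 hSx, card_empty, Nat.cast_zero]
    positivity
  have hfl : ∀ E : ℕ, L ^ E ≤ (⌈L ^ E⌉₊ : ℝ) ∧ (⌈L ^ E⌉₊ : ℝ) ≤ L ^ (E + 1) := by
    intro E
    refine ⟨Nat.le_ceil _, ?_⟩
    have h5 : (⌈L ^ E⌉₊ : ℝ) < L ^ E + 1 := Nat.ceil_lt_add_one (by positivity)
    have h6 : 1 ≤ L ^ E := one_le_pow₀ hL1
    rw [pow_succ]
    nlinarith
  obtain ⟨z, hz⟩ : ∃ z, z = ⌈L ^ E1⌉₊ := ⟨_, rfl⟩
  obtain ⟨T, hT⟩ : ∃ T, T = ⌈L ^ (V + m + 4)⌉₊ := ⟨_, rfl⟩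
  have hz1 : L ^ E1 ≤ z := by rw [hz]; exact (hfl E1).1
  have hz2 : (z : ℝ) ≤ L ^ (E1 + 1) := by rw [hz]; exact (hfl E1).2
  have hT1 : L ^ (V + m + 4) ≤ T := by rw [hT]; exact (hfl (V + m + 4)).1
  have hT2 : (T : ℝ) ≤ L ^ (V + m + 5) := by rw [hT]; exact (hfl (V + m + 4)).2
  obtain ⟨R, hR⟩ : ∃ R : ℕ, R = ⌊L ^ D⌋₊ := ⟨_, rfl⟩
  have hRL : (R : ℝ) ≤ L ^ D := by rw [hR]; exact Nat.floor_le (by positivity)
  obtain ⟨I, hI⟩ : ∃ I : Finset (ℕ × (Fin k → ℤ)), I = range (T + 1) ×ˢ Fintype.piFinset (fun _ => Icc (-(R : ℤ)) (R : ℤ)) := ⟨_, rfl⟩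
  have hIcard : (I.card : ℝ) ≤ L ^ (V + m + 6 + k * (D + 1)) := by
    rw [hI, card_product, Fintype.card_piFinset, prod_const, card_univ, Fintype.card_fin, card_range, Int.card_Icc]
    have e1 : ((R : ℤ) + 1 - -(R : ℤ)).toNat = 2 * R + 1 := by omega
    rw [e1]
    push_cast
    have hLD : 1 ≤ L ^ D := one_le_pow₀ hL1
    have f1 : (T : ℝ) + 1 ≤ L ^ (V + m + 6) := by
      have h6 : 1 ≤ L ^ (V + m + 5) := one_le_pow₀ hL1
      rw [show V + m + 6 = (V + m + 5) + 1 by ring, pow_succ L (V + m + 5)]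
      nlinarith
    have f3 : 2 * (R : ℝ) + 1 ≤ L ^ (D + 1) := by rw [pow_succ]; nlinarith
    calc ((T : ℝ) + 1) * (2 * (R : ℝ) + 1) ^ k ≤ L ^ (V + m + 6) * (L ^ (D + 1)) ^ k := by gcongr
      _ = L ^ (V + m + 6 + k * (D + 1)) := by rw [← pow_mul, ← pow_add]; congr 1; ring
  have key := markov (Fintype.piFinset (fun i => Icc 1 (x i))) I (fun _ => (1 : ℝ)) (fun _ _ => zero_le_one)
    (fun q i => if ∀ j, i.2 j ≠ 0 then |∑ n ∈ Icc 1 (min (i.1 * (Y / T + 1)) Y),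
        w n * (∏ j, LL (i.2 j * (n : ℤ) + s j (q j)) - ∏ j, mdl z (i.2 j * (n : ℤ) + s j (q j)))| else 0)
    (fun _ _ => by split_ifs <;> positivity) (fun q => q ∈ 𝒮) (X / L ^ (V + 2)) ((X / L ^ U') * ∏ i, (x i : ℝ)) (by positivity) (by
      intro q hq hqS
      by_contra hcon
      push Not at hcon
      apply hS q hqS
      refine hdet X (by omega) (fun i => s i (q i)) ?_ Y hYX z (by rw [← hL]; exact hz1) (by rw [← hL]; exact hz2) T
        (by rw [← hL]; exact hT1) ?_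
      · intro i
        have a1 := hs i (q i) (Fintype.mem_piFinset.1 hq i)
        have : ((s i (q i)).natAbs : ℤ) ≤ X := by rw [Int.natCast_natAbs]; exact a1
        exact_mod_cast this
      intro i hi α hα hαL
      rw [← hL] at hαL ⊢
      have hmem : (i, α) ∈ I := by
        rw [hI, mem_product, mem_range, Fintype.mem_piFinset]
        refine ⟨by simp only; omega, fun j => ?_⟩
        have h7 : (α j).natAbs ≤ R := by rw [hR]; exact Nat.le_floor (hαL j)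
        simp only [mem_Icc]
        omega
      have h5 := hcon (i, α) hmem
      simp only at h5
      rw [if_pos hα] at h5
      exact h5.le)
    (by
      intro i hi
      rw [hI, mem_product, mem_range, Fintype.mem_piFinset] at hi
      simp only [one_mul]
      by_cases hab : ∀ j, i.2 j ≠ 0
      · simp only [if_pos hab]
        refine c1 hx hs hE z ((pow_le_pow_right₀ hL1 (by omega)).trans hz1) hz2 i.2 hab (min (i.1 * (Y / T + 1)) Y) ?_ w ?_
        · intro j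
          have h4 := mem_Icc.1 (hi.2 j)
          have h5 : (i.2 j).natAbs ≤ R := by omega
          have h6 : (i.2 j).natAbs * min (i.1 * (Y / T + 1)) Y ≤ R * Y := Nat.mul_le_mul h5 (min_le_right _ _)
          have h7 : (R : ℝ) * Y ≤ X := by
            calc (R : ℝ) * Y ≤ L ^ D * Y := mul_le_mul_of_nonneg_right hRL hY0
              _ = Y * L ^ D := mul_comm _ _
              _ ≤ X := hY
          have h8 : R * Y ≤ X := by exact_mod_cast h7
          exact h6.trans h8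
        · intro n hn
          rw [mem_Icc] at hn
          rw [abs_of_nonneg (hd.w0 n), hL]
          exact hd.w1 X n (by omega) ((hn.2.trans (min_le_right _ _)).trans hYX)
      · simp only [if_neg hab, sum_const_zero]
        positivity)
  have hleft : (𝒮.card : ℝ) = ∑ q ∈ Fintype.piFinset (fun i => Icc 1 (x i)), (if q ∈ 𝒮 then (1 : ℝ) else 0) := by
    rw [sum_ite_mem, inter_eq_right.2 hSx, sum_const, nsmul_eq_mul, mul_one]
  rw [← hleft] at key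
  refine key.trans ?_
  obtain ⟨P, hP⟩ : ∃ P : ℝ, P = ∏ i, (x i : ℝ) := ⟨_, rfl⟩
  rw [← hP] at hprod0 ⊢
  calc (I.card : ℝ) * ((X / L ^ U') * P) / (X / L ^ (V + 2))
      ≤ L ^ (V + m + 6 + k * (D + 1)) * ((X / L ^ U') * P) / (X / L ^ (V + 2)) := by gcongr
    _ = P * L ^ (2 * V + m + 8 + k * (D + 1)) / L ^ U' := by
        rw [show 2 * V + m + 8 + k * (D + 1) = (V + m + 6 + k * (D + 1)) + (V + 2) by ring, pow_add L (V + m + 6 + k * (D + 1))]
        field_simp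
    _ ≤ P / L ^ U := by
        rw [div_le_div_iff₀ (by positivity) (by positivity)]
        calc P * L ^ (2 * V + m + 8 + k * (D + 1)) * L ^ U = P * L ^ (2 * V + m + 8 + k * (D + 1) + U) := by rw [pow_add L (2 * V + m + 8 + k * (D + 1)) U]; ring
          _ ≤ P * L ^ U' := by
              apply mul_le_mul_of_nonneg_left _ hprod0
              exact pow_le_pow_right₀ hL1 (by omega)


end A

section B
open Finset
open Pool.Agent.H373R2.T7
open Pool.Agent.TH935.TF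
open Pool.Agent.W93.GB (vM_le)

set_option maxHeartbeats 4000000 in
theorem sys_F {k m : ℕ} {w : ℕ → ℝ} {sA sB : (Fin k → ℤ) → (Fin m → ℤ)} (hs : Sys k m w sA sB) (hk : 1 ≤ k)
    (𝓕 : Fin k → ℕ → ℕ → (ℕ → ℤ) → Prop) (hM : ∀ i U, Mom1 (𝓕 i) U)
    (A B D U : ℕ) (ε : ℝ) (hε : 0 < ε) : ∃ N0 : ℕ, ∀ N : ℕ, N0 ≤ N →
    ∀ (x : Fin k → ℕ) (s : Fin k → ℕ → ℤ), (∀ i, ∀ j ∈ Icc 1 (x i), |s i j| ≤ B * N) →
    (∀ i, 𝓕 i (sc D N) (x i) (s i)) →
    ∀ 𝒮 : Finset (Fin k → ℕ), 𝒮 ⊆ Fintype.piFinset (fun i => Icc 1 (x i)) →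
    (∀ q ∈ 𝒮, ¬ HW sA sB ε A B D N (fun i => s i (q i))) → (𝒮.card : ℝ) ≤ (∏ i, (x i : ℝ)) / Real.log N ^ U := by
  have hm : 1 ≤ m := hs.dat.hm
  obtain ⟨X0, h0⟩ := gg_F hs.dat 𝓕 hM D (A + D + 4) U
  obtain ⟨c, hc, hlow⟩ := Gz_low m hm
  obtain ⟨n1, h1⟩ := conv m A B D hm ε c hε hc
  obtain ⟨n2, h2⟩ := ev_L' (B * 2 ^ D + B + 10)
  obtain ⟨n3, h3⟩ := ev_log' (D + 3) 1
  obtain ⟨cc, hloc⟩ := hs.dat.loc
  refine ⟨X0 + n1 + n2 + n3 + 3, fun N hN x s hsb hE 𝒮 hSx hS => ?_⟩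
  have b1 := h1 N (by omega)
  have b2 := h2 N (by omega)
  have b3 := h3 N (by omega)
  obtain ⟨L, hL⟩ : ∃ L, L = Real.log (N : ℝ) := ⟨_, rfl⟩
  have hsc : sc D N = N * ⌈L ^ (D + 2)⌉₊ := by unfold sc; rw [← hL]
  rw [hsc] at hE
  rw [← hL] at b1 b2 b3 ⊢
  rw [one_mul] at b3
  have hB0 : (0 : ℝ) ≤ B := Nat.cast_nonneg _
  have hBD : 0 ≤ (B : ℝ) * 2 ^ D := by positivity
  have hL10 : 10 ≤ L := by linarith
  have hL1 : 1 ≤ L := by linarith
  have hL0 : 0 < L := by linarith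
  have hNr : (3 : ℝ) ≤ N := by exact_mod_cast (by omega : 3 ≤ N)
  have hN0 : (0 : ℝ) < N := by linarith
  obtain ⟨X, hX⟩ : ∃ X : ℕ, X = N * ⌈L ^ (D + 2)⌉₊ := ⟨_, rfl⟩
  have hc1 : L ^ (D + 2) ≤ (⌈L ^ (D + 2)⌉₊ : ℝ) := Nat.le_ceil _
  have hc2 : (⌈L ^ (D + 2)⌉₊ : ℝ) ≤ L ^ (D + 3) := by
    have h5 : (⌈L ^ (D + 2)⌉₊ : ℝ) < L ^ (D + 2) + 1 := Nat.ceil_lt_add_one (by positivity)
    have h6 : 1 ≤ L ^ (D + 2) := one_le_pow₀ hL1
    rw [show D + 3 = (D + 2) + 1 by ring, pow_succ L (D + 2)]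
    nlinarith
  have hXr : (X : ℝ) = N * (⌈L ^ (D + 2)⌉₊ : ℝ) := by rw [hX]; push_cast; rfl
  have hX1 : (N : ℝ) * L ^ (D + 2) ≤ X := by rw [hXr]; exact mul_le_mul_of_nonneg_left hc1 hN0.le
  have hX2 : (X : ℝ) ≤ N * L ^ (D + 3) := by rw [hXr]; exact mul_le_mul_of_nonneg_left hc2 hN0.le
  have hNX : (N : ℝ) ≤ X := (le_mul_of_one_le_right hN0.le (one_le_pow₀ hL1)).trans hX1
  have hNXn : N ≤ X := by exact_mod_cast hNX
  have hX0 : (0 : ℝ) < X := by linarith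
  obtain ⟨LX, hLX⟩ : ∃ LX, LX = Real.log (X : ℝ) := ⟨_, rfl⟩
  have hLLX : L ≤ LX := by rw [hL, hLX]; exact Real.log_le_log hN0 hNX
  have hLX0 : 0 < LX := by linarith
  have hLX2 : LX ≤ 2 * L := by
    have e1 : (X : ℝ) ≤ N ^ 2 := by
      refine hX2.trans ?_
      rw [sq]
      apply mul_le_mul_of_nonneg_left _ hN0.le
      refine b3.trans ?_
      rw [Real.sqrt_le_left hN0.le]
      nlinarith
    have e2 := Real.log_le_log hX0 e1
    rw [Real.log_pow, ← hL, ← hLX] at e2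
    exact_mod_cast e2
  have hBL : (B : ℝ) ≤ L ^ (D + 2) := by
    have : L ≤ L ^ (D + 2) := le_self_pow₀ hL1 (by omega)
    linarith
  have hBX : (B : ℝ) * N ≤ X := by
    refine le_trans ?_ hX1
    rw [mul_comm]
    exact mul_le_mul_of_nonneg_left hBL hN0.le
  have hBXn : B * N ≤ X := by exact_mod_cast hBX
  have hsX : ∀ i, ∀ j ∈ Icc 1 (x i), |s i j| ≤ X := by
    intro i j hj
    refine (hsb i j hj).trans ?_
    exact_mod_cast hBXn
  have key := h0 X (by omega) (B * N) (by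
      rw [← hLX]
      push_cast
      calc (B : ℝ) * N * LX ^ D ≤ B * N * (2 * L) ^ D := by gcongr
        _ = N * ((B * 2 ^ D) * L ^ D) := by rw [mul_pow]; ring
        _ ≤ N * (L * L ^ D) := by
            apply mul_le_mul_of_nonneg_left _ hN0.le
            apply mul_le_mul_of_nonneg_right _ (by positivity)
            linarith
        _ = N * L ^ (D + 1) := by ring
        _ ≤ N * L ^ (D + 2) := by
            apply mul_le_mul_of_nonneg_left _ hN0.le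
            exact pow_le_pow_right₀ hL1 (by omega)
        _ ≤ X := hX1) x s hsX (fun i => by rw [hX]; exact hE i) 𝒮 hSx (by
      intro q hq hGG
      apply hS q hq
      intro α hα hαL hadm hdist
      have hβ : ∀ i, (s i (q i)).natAbs ≤ B * N := by
        intro i
        have a1 := hsb i (q i) (Fintype.mem_piFinset.1 (hSx hq) i)
        have : ((s i (q i)).natAbs : ℤ) ≤ ((B * N : ℕ) : ℤ) := by rw [Int.natCast_natAbs]; push_cast; exact a1
        exact_mod_cast this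
      rw [← hL] at hαL ⊢
      have hαLX : ∀ i, ((α i).natAbs : ℝ) ≤ LX ^ D := fun i => (hαL i).trans (pow_le_pow_left₀ hL0.le hLLX _)
      have hαX : ∀ i, (α i).natAbs ≤ X := by
        intro i
        have h5 : ((α i).natAbs : ℝ) ≤ X := by
          calc ((α i).natAbs : ℝ) ≤ L ^ D := hαL i
            _ ≤ L ^ (D + 2) := pow_le_pow_right₀ hL1 (by omega)
            _ ≤ N * L ^ (D + 2) := le_mul_of_one_le_left (by positivity) (by linarith)
            _ ≤ X := hX1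
        exact_mod_cast h5
      obtain ⟨bad, hLoc, -⟩ := hloc X (by omega) α (fun i => s i (q i)) hα hαX (fun i => (hβ i).trans hBXn) ⟨hadm, hdist⟩
      obtain ⟨S, hSt, -, hSlow⟩ := limit_full hLoc hm
      have hcS : c ≤ S := hSlow c (fun z => hlow _ bad hLoc z)
      refine ⟨S, lt_of_lt_of_le hc hcS, hSt, fun y₁ y₂ h12 hy2 hΔ => ?_⟩
      apply b1 (sA α) (sB fun i => s i (q i)) (hs.ne α hα) (hs.leA α (L ^ D) (one_le_pow₀ hL1) hαL)
        (hs.leB _ (B * N) hβ) y₁ y₂ h12 hy2 hΔ S hcS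
      have g1 := hGG α hα (by rw [← hLX]; exact hαLX) ⟨hadm, hdist⟩ S hSt y₁ y₂ h12 hy2
      rw [← hLX] at g1
      have e1 : Wt (sA α) (sB fun i => s i (q i)) y₁ y₂ = ∑ n ∈ Ioc y₁ y₂, w n * ∏ i, LL (α i * (n : ℤ) + s i (q i)) := by
        unfold Wt
        apply sum_congr rfl
        intro n _
        exact (hs.wt α (fun i => s i (q i)) n).symm
      rw [e1]
      refine g1.trans ?_
      calc (X : ℝ) / LX ^ (A + D + 4) ≤ N * L ^ (D + 3) / L ^ (A + D + 4) := by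
            apply div_le_div₀ (by positivity) hX2 (by positivity)
            exact pow_le_pow_left₀ hL0.le hLLX _
        _ = N / L ^ (A + 1) := by
            rw [show A + D + 4 = (D + 3) + (A + 1) by ring, pow_add L (D + 3) (A + 1)]
            field_simp)
  refine key.trans ?_
  rw [← hLX]
  apply div_le_div_of_nonneg_left _ (by positivity)
  · exact pow_le_pow_left₀ hL0.le hLLX _
  · exact prod_nonneg fun i _ => Nat.cast_nonneg _


end B

end Pool.Agent.D0H16.SF
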