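import Pool.Agent.D0H16.SF.Mom
import Pool.Agent.N469.TL.Fin

set_option autoImplicit false

/-! The one coordinate estimate for the integers composed of primes from `P`. -/

namespace Pool.Agent.D0H16.SF
open Finset
open Pool.Agent.H807R2.Dav
open Pool.Agent.H373R2.T7
open Pool.Agent.Y885 (TLaw Spec)
open Pool.Agent.N469.TL
open Pool.Agent.N469.SM (SS mem_SS one_mem_SS SS_mono card_SS_le card_SS_pos)

/-- transport of a law along a bijection -/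
lemma law_bij {b E c V K : ℕ} {ι : Type} {Ω : Finset ι} {q : ℝ} {Y : ι → ℤ} (h : TLaw b E c V K Ω (fun _ => q) Y)
    (Ω' : Finset ℕ) (e : ℕ → ι) (s : ℕ → ℤ) (he : Set.BijOn e (Ω' : Set ℕ) (Ω : Set ι)) (hs : ∀ m ∈ Ω', s m = Y (e m)) :
    TLaw b E c V K Ω' (fun _ => q) s := by
  have hsum : ∀ (M : Type) [AddCommMonoid M] (F : ι → M), ∑ m ∈ Ω', F (e m) = ∑ v ∈ Ω, F v := by
    intro M _ F
    exact sum_nbij e (fun m hm => he.1 hm) he.2.1 he.2.2 (fun m _ => rfl)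
  refine ⟨?_, ?_, ?_⟩
  · intro m hm
    exact h.nonneg (e m) (he.1 hm)
  · refine le_trans (le_of_eq ?_) h.le_one
    exact hsum ℝ (fun _ => q)
  · have h1 : Spec b V K Ω' (fun _ => q) s = Spec b V K Ω (fun _ => q) Y := by
      unfold Spec
      congr 1
      ext t
      rw [← hsum ℂ (fun v => ((q : ℝ) : ℂ) * ee ((Y v : ℝ) * ((t : ℝ) / ((b ^ (K + 1) : ℕ) : ℝ))))]
      rw [sum_congr rfl (fun m hm => by rw [hs m hm])]
    rw [h1]
    exact h.thin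

/-- the families `c + κ v`, `v ≤ N` composed of primes from `P`; `X` is the scale of the values -/
def SmC (δ : ℝ) (Kp W : ℕ) (X x : ℕ) (s : ℕ → ℤ) : Prop :=
  ∃ (N : ℕ) (P : Finset ℕ) (y : ℕ) (κ c : ℤ) (e : ℕ → ℕ), N ≤ X ∧ (X : ℝ) ≤ N * Real.log X ^ W ∧ Cond δ Kp N P y ∧ κ ≠ 0 ∧
    κ.natAbs ≤ (Nat.log 2 N + 1) ^ (W + 1) ∧ x = (SS P N).card ∧
    Set.BijOn e ((Icc 1 x : Finset ℕ) : Set ℕ) ((SS P N : Finset ℕ) : Set ℕ) ∧ ∀ m ∈ Icc 1 x, s m = c + κ * (e m : ℤ)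

theorem sm_mom1 (δ : ℝ) (hδ : 0 < δ) (Kp W U : ℕ) : Mom1 (SmC δ Kp W) U := by
  obtain ⟨c, N1, h1⟩ := sm_lawX δ hδ Kp 1 one_ne_zero W (2 * (U + 1) + 6)
  obtain ⟨B0, hB0⟩ := tl_mom1 2 3 c U le_rfl (by norm_num)
  refine ⟨B0, fun E => ?_⟩
  obtain ⟨N2, h2⟩ := hB0 E
  obtain ⟨n3, h3⟩ := ev_log' W 1
  refine ⟨N2 + N1 ^ 2 + n3 + 3, fun X hX x s hx hs hF => ?_⟩
  obtain ⟨N, P, y, κ, a, e, hNX, hXN, hc, hκ0, hκ, hxc, hbij, hse⟩ := hF
  have hX0 : (0 : ℝ) < X := by exact_mod_cast (by omega : 0 < X)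
  have hN1 : N1 ≤ N := by
    have e1 := h3 X (by omega)
    rw [one_mul] at e1
    have e2 : √(X : ℝ) * √(X : ℝ) ≤ N * √(X : ℝ) := by
      rw [Real.mul_self_sqrt hX0.le]
      exact hXN.trans (mul_le_mul_of_nonneg_left e1 (Nat.cast_nonneg _))
    have e3 := le_of_mul_le_mul_right e2 (Real.sqrt_pos.2 hX0)
    rw [Real.sqrt_le_left (Nat.cast_nonneg _)] at e3
    have e4 : X ≤ N ^ 2 := by exact_mod_cast e3
    by_contra hcon
    push Not at hcon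
    have e5 : N ^ 2 ≤ N1 ^ 2 := Nat.pow_le_pow_left hcon.le 2
    omega
  refine h2 X (by omega) x s hx hs ?_
  unfold ThinF
  have hκ1 : 1 ≤ κ.natAbs := by omega
  rw [show (1 / (x : ℝ)) = 1 / (((SS P N).card : ℕ) : ℝ) by rw [hxc]]
  rcases lt_or_gt_of_ne hκ0 with hneg | hpos
  · have h5 := (h1 N hN1 P y hc.primes hc.one hc.top hc.card X hNX hXN κ.natAbs hκ1 hκ (-a)).neg
    refine law_bij h5 (Icc 1 x) e s hbij ?_
    intro m hm
    rw [hse m hm]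
    have : (κ.natAbs : ℤ) = -κ := by omega
    rw [this]
    ring
  · have h5 := h1 N hN1 P y hc.primes hc.one hc.top hc.card X hNX hXN κ.natAbs hκ1 hκ a
    refine law_bij h5 (Icc 1 x) e s hbij ?_
    intro m hm
    rw [hse m hm]
    have : (κ.natAbs : ℤ) = κ := by omega
    rw [this]
    ring

end Pool.Agent.D0H16.SF
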