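import Pool.Agent.D0H16.SF.Fam
import Pool.Agent.D0H16.SF.Sm

set_option autoImplicit false

/-! Systems of linear forms whose constant terms are built from integers composed of primes from `P`. -/

namespace Pool.Agent.D0H16.SF
open Finset
open Pool.Agent.H373R2.T7
open Pool.Agent.TH935.TF
open Pool.Agent.N469.TL
open Pool.Agent.N469.SM (SS mem_SS one_mem_SS SS_mono card_SS_le card_SS_pos)

/-- union bound -/
lemma union_bd {ι α : Type} (Q : Finset α) (I : Finset ι) (bad : ι → α → Prop) (Bad : α → Prop) [DecidablePred Bad]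
    [∀ i, DecidablePred (bad i)] (T : ℝ) (h1 : ∀ i ∈ I, ((Q.filter (bad i)).card : ℝ) ≤ T)
    (h2 : ∀ q ∈ Q, Bad q → ∃ i ∈ I, bad i q) : ((Q.filter Bad).card : ℝ) ≤ I.card * T := by
  classical
  have h3 : Q.filter Bad ⊆ I.biUnion (fun i => Q.filter (bad i)) := by
    intro q hq
    rw [mem_filter] at hq
    obtain ⟨i, hi, hb⟩ := h2 q hq.1 hq.2
    rw [mem_biUnion]
    exact ⟨i, hi, mem_filter.2 ⟨hq.1, hb⟩⟩
  have h4 : ((Q.filter Bad).card : ℝ) ≤ ∑ i ∈ I, ((Q.filter (bad i)).card : ℝ) := by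
    exact_mod_cast (card_le_card h3).trans card_biUnion_le
  refine h4.trans ((sum_le_card_nsmul _ _ _ h1).trans (le_of_eq ?_))
  rw [nsmul_eq_mul]

/-- the conclusion for one vector of constant terms -/
def All {k : ℕ} (ε : ℝ) (A B N : ℕ) (β : Fin k → ℤ) : Prop :=
  HW (fun α : Fin k → ℤ => α) (fun β => β) ε A B A N β ∧ HW (consA (k := k)) consB ε A B A N β

set_option maxHeartbeats 4000000 in
/-- the conclusion for one class -/
theorem all_F (k : ℕ) (𝓕 : Fin k → ℕ → ℕ → (ℕ → ℤ) → Prop) (hM : ∀ i U, Mom1 (𝓕 i) U) (A B U : ℕ) (hk : 1 ≤ k)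
    (ε : ℝ) (hε : 0 < ε) : ∃ N0 : ℕ, ∀ N : ℕ, N0 ≤ N →
    ∀ (x : Fin k → ℕ) (s : Fin k → ℕ → ℤ), (∀ i, ∀ j ∈ Icc 1 (x i), |s i j| ≤ B * N) →
    (∀ i, 𝓕 i (sc A N) (x i) (s i)) →
    ∀ Bad : (Fin k → ℕ) → Prop, ∀ _ : DecidablePred Bad,
    (∀ q, Bad q → ¬ All ε A B N (fun i => s i (q i))) →
    (((Fintype.piFinset (fun i => Icc 1 (x i))).filter Bad).card : ℝ) ≤ 3 * ((∏ i, (x i : ℝ)) / Real.log N ^ U) := by
  classical
  obtain ⟨n1, h1⟩ := sys_F (sys_one k hk) hk 𝓕 hM A B A U ε hε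
  obtain ⟨n2, h2⟩ := sys_F (sys_lam k hk) hk 𝓕 hM A B A U ε hε
  obtain ⟨n3, h3⟩ := ev_L' 1
  refine ⟨n1 + n2 + n3, fun N hN x s hs hF Bad _ hBad => ?_⟩
  have hL := h3 N (by omega)
  obtain ⟨Q, hQ⟩ : ∃ Q, Q = Fintype.piFinset (fun i => Icc 1 (x i)) := ⟨_, rfl⟩
  obtain ⟨T, hT⟩ : ∃ T, T = (∏ i, (x i : ℝ)) / Real.log N ^ U := ⟨_, rfl⟩
  have hT0 : 0 ≤ T := by rw [hT]; exact div_nonneg (prod_nonneg fun i _ => Nat.cast_nonneg _) (by positivity)
  have a1 := h1 N (by omega) x s hs hF (Q.filter (fun q => ¬ HW (fun α : Fin k → ℤ => α) (fun β => β) ε A B A N (fun i => s i (q i))))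
    (by rw [hQ]; exact filter_subset _ _) (by intro q hq; exact (mem_filter.1 hq).2)
  have a2 := h2 N (by omega) x s hs hF (Q.filter (fun q => ¬ HW (consA (k := k)) consB ε A B A N (fun i => s i (q i))))
    (by rw [hQ]; exact filter_subset _ _) (by intro q hq; exact (mem_filter.1 hq).2)
  rw [← hT] at a1 a2 ⊢
  rw [← hQ]
  have h5 := union_bd Q (univ : Finset (Fin 2)) (fun j q => match j with
    | 0 => ¬ HW (fun α : Fin k → ℤ => α) (fun β => β) ε A B A N (fun i => s i (q i))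
    | 1 => ¬ HW (consA (k := k)) consB ε A B A N (fun i => s i (q i))) Bad T (by
      intro j _
      fin_cases j
      · refine le_trans (le_of_eq ?_) a1
        congr 2
        ext q
        simp only [mem_filter]
      · refine le_trans (le_of_eq ?_) a2
        congr 2
        ext q
        simp only [mem_filter]) (by
      intro q _ hb
      by_contra hcon
      apply hBad q hb
      push Not at hcon
      refine ⟨?_, ?_⟩
      · exact not_not.1 (hcon 0 (mem_univ _))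
      · exact not_not.1 (hcon 1 (mem_univ _)))
  rw [card_univ, Fintype.card_fin] at h5
  push_cast at h5
  linarith

end Pool.Agent.D0H16.SF
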