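import Pool.Agent.D0H16.SF.Main

set_option autoImplicit false

/-! Systems of linear forms whose constant terms are built from integers composed of primes from `P`. -/

namespace Pool.Agent.D0H16.SF
open Finset
open Pool.Agent.H373R2.T7
open Pool.Agent.TH935.TF
open Pool.Agent.N469.TL
open Pool.Agent.N469.SM (SS mem_SS one_mem_SS SS_mono card_SS_le card_SS_pos)

/-- an enumeration of a finite set -/
lemma bij_ex (S : Finset ℕ) : ∃ e : ℕ → ℕ, Set.BijOn e ((Icc 1 S.card : Finset ℕ) : Set ℕ) (S : Set ℕ) := by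
  classical
  obtain ⟨f⟩ : Nonempty ((Icc 1 S.card : Finset ℕ) ≃ S) :=
    ⟨Finset.equivOfCardEq (by rw [Nat.card_Icc]; omega)⟩
  refine ⟨fun m => if hm : m ∈ Icc 1 S.card then (f ⟨m, hm⟩ : ℕ) else 0, ?_, ?_, ?_⟩
  · intro m hm
    rw [mem_coe] at hm
    simp only [dif_pos hm]
    exact (f ⟨m, hm⟩).2
  · intro m hm m' hm' h
    rw [mem_coe] at hm hm'
    simp only [dif_pos hm, dif_pos hm'] at h
    have := f.injective (Subtype.ext h)
    exact congrArg Subtype.val this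
  · intro v hv
    rw [mem_coe] at hv
    refine ⟨((f.symm ⟨v, hv⟩ : (Icc 1 S.card : Finset ℕ)) : ℕ), ?_, ?_⟩
    · exact (f.symm ⟨v, hv⟩).2
    · have h1 : ((f.symm ⟨v, hv⟩ : (Icc 1 S.card : Finset ℕ)) : ℕ) ∈ Icc 1 S.card := (f.symm ⟨v, hv⟩).2
      simp only [dif_pos h1, Subtype.coe_eta, Equiv.apply_symm_apply]

/-- the families `c + κ v` belong to the class -/
lemma class_of (A B : ℕ) (δ : ℝ) : ∃ N₀ : ℕ, ∀ N : ℕ, N₀ ≤ N → ∀ (x : ℕ) (P : Finset ℕ) (y : ℕ),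
    x ≤ N → (N : ℝ) ≤ x * Real.log N ^ A → Cond δ A N P y → ∀ κ c : ℤ, κ ≠ 0 → |κ| * x ≤ B * N →
    ∀ e : ℕ → ℕ, Set.BijOn e ((Icc 1 (SS P x).card : Finset ℕ) : Set ℕ) ((SS P x : Finset ℕ) : Set ℕ) →
    SmC δ (A + 1) (2 * A + 3) (sc A N) (SS P x).card (fun m => c + κ * (e m : ℤ)) := by
  obtain ⟨n1, h1⟩ := ev_L' (2 ^ (A + 1) + B * 2 ^ (2 * A + 4) + 4)
  obtain ⟨n2, h2⟩ := ev_log' A 1
  refine ⟨n1 + n2 + 4, fun N hN x P y hxN hNx hc κ c hκ0 hκ e he => ?_⟩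
  have a1 := h1 N (by omega)
  have a2 := h2 N (by omega)
  obtain ⟨L, hL⟩ : ∃ L, L = Real.log (N : ℝ) := ⟨_, rfl⟩
  have hcp := hc.primes
  have hc1 := hc.one
  have hct := hc.top
  have hcc := hc.card
  rw [← hL] at a1 a2 hNx hct hcc
  rw [one_mul] at a2
  have q1 : (0 : ℝ) ≤ B * 2 ^ (2 * A + 4) := by positivity
  have q2 : (0 : ℝ) < 2 ^ (A + 1) := by positivity
  have hL4 : 4 ≤ L := by linarith
  have hL1 : 1 ≤ L := by linarith
  have hL0 : 0 < L := by linarith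
  have hN0 : (0 : ℝ) < N := by exact_mod_cast (by omega : 0 < N)
  have hx0 : 0 < x := by
    rcases Nat.eq_zero_or_pos x with h | h
    · rw [h, Nat.cast_zero, zero_mul] at hNx
      linarith
    · exact h
  have hxr : (0 : ℝ) < x := by exact_mod_cast hx0
  -- `x` is at least `√N`
  have hxs : √(N : ℝ) ≤ x := by
    have e1 : √(N : ℝ) * √(N : ℝ) ≤ x * √(N : ℝ) := by
      rw [Real.mul_self_sqrt hN0.le]
      exact hNx.trans (mul_le_mul_of_nonneg_left a2 hxr.le)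
    exact le_of_mul_le_mul_right e1 (Real.sqrt_pos.2 hN0)
  have hLx : L ≤ 2 * Real.log x := by
    have e1 := Real.log_le_log (Real.sqrt_pos.2 hN0) hxs
    rw [Real.log_sqrt hN0.le, ← hL] at e1
    linarith
  have hLx2 : Real.log x ≤ L := by
    rw [hL]
    exact Real.log_le_log hxr (by exact_mod_cast hxN)
  have hlx0 : 0 < Real.log x := by linarith
  have hX : (sc A N : ℝ) = N * (⌈L ^ (A + 2)⌉₊ : ℝ) := by unfold sc; rw [← hL]; push_cast; rfl
  have hc2 : (⌈L ^ (A + 2)⌉₊ : ℝ) ≤ L ^ (A + 3) := by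
    have h5 : (⌈L ^ (A + 2)⌉₊ : ℝ) < L ^ (A + 2) + 1 := Nat.ceil_lt_add_one (by positivity)
    have h6 : 1 ≤ L ^ (A + 2) := one_le_pow₀ hL1
    rw [show A + 3 = (A + 2) + 1 by ring, pow_succ L (A + 2)]
    nlinarith
  have hNX : N ≤ sc A N := by
    unfold sc
    apply Nat.le_mul_of_pos_right
    rw [Nat.ceil_pos, ← hL]
    positivity
  have hLX : L ≤ Real.log (sc A N : ℝ) := by
    rw [hL]
    exact Real.log_le_log hN0 (by exact_mod_cast hNX)
  refine ⟨x, P, y, κ, c, e, hxN.trans hNX, ?_, ⟨hcp, hc1, ?_, ?_⟩, hκ0, ?_, rfl, he, fun m _ => rfl⟩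
  · rw [hX]
    calc (N : ℝ) * (⌈L ^ (A + 2)⌉₊ : ℝ) ≤ (x * L ^ A) * L ^ (A + 3) := by gcongr
      _ = x * L ^ (2 * A + 3) := by ring
      _ ≤ x * Real.log (sc A N : ℝ) ^ (2 * A + 3) := by gcongr
      _ = _ := by rw [hX]
  · calc (y : ℝ) ≤ L ^ A := hct
      _ ≤ (2 * Real.log x) ^ A := pow_le_pow_left₀ hL0.le hLx A
      _ = 2 ^ A * Real.log x ^ A := mul_pow _ _ _
      _ ≤ Real.log x * Real.log x ^ A := by
          apply mul_le_mul_of_nonneg_right _ (by positivity)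
          rw [pow_succ] at a1
          linarith
      _ = _ := by rw [pow_succ, mul_comm]
  · refine le_trans ?_ hcc
    exact mul_le_mul_of_nonneg_left hLx2 (by positivity)
  · have e1 : (κ.natAbs : ℝ) * x ≤ B * (x * L ^ A) := by
      have e2 : ((κ.natAbs * x : ℕ) : ℝ) ≤ ((B * N : ℕ) : ℝ) := by
        have : ((κ.natAbs * x : ℕ) : ℤ) ≤ ((B * N : ℕ) : ℤ) := by
          push_cast
          exact hκ
        exact_mod_cast this
      push_cast at e2
      exact e2.trans (mul_le_mul_of_nonneg_left hNx (Nat.cast_nonneg _))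
    have e2 : (κ.natAbs : ℝ) ≤ B * L ^ A := by
      have : (κ.natAbs : ℝ) * x ≤ (B * L ^ A) * x := by linarith
      exact le_of_mul_le_mul_right this hxr
    have e3 : L ≤ 2 * ((Nat.log 2 x + 1 : ℕ) : ℝ) := by
      have hx2 : 2 ≤ x := by
        by_contra hcon
        have : x = 1 := by omega
        rw [this, Nat.cast_one, Real.log_one] at hlx0
        exact lt_irrefl _ hlx0
      have := (log_digits x hx2).1
      linarith
    have e4 : L ^ (2 * A + 4) ≤ 2 ^ (2 * A + 4) * ((Nat.log 2 x + 1 : ℕ) : ℝ) ^ (2 * A + 4) := by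
      rw [← mul_pow]
      exact pow_le_pow_left₀ hL0.le e3 _
    have e5 : (B * L ^ A) * 2 ^ (2 * A + 4) ≤ L ^ (2 * A + 4) := by
      calc (B * L ^ A) * 2 ^ (2 * A + 4) = (B * 2 ^ (2 * A + 4)) * L ^ A := by ring
        _ ≤ L * L ^ A := mul_le_mul_of_nonneg_right (by linarith) (by positivity)
        _ = L ^ (A + 1) := by ring
        _ ≤ L ^ (2 * A + 4) := pow_le_pow_right₀ hL1 (by omega)
    have e6 : (κ.natAbs : ℝ) * 2 ^ (2 * A + 4) ≤ ((Nat.log 2 x + 1 : ℕ) : ℝ) ^ (2 * A + 4) * 2 ^ (2 * A + 4) := by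
      calc (κ.natAbs : ℝ) * 2 ^ (2 * A + 4) ≤ (B * L ^ A) * 2 ^ (2 * A + 4) := mul_le_mul_of_nonneg_right e2 (by positivity)
        _ ≤ L ^ (2 * A + 4) := e5
        _ ≤ _ := e4
        _ = _ := mul_comm _ _
    have e7 := le_of_mul_le_mul_right e6 (by positivity)
    have e8 : 2 * A + 3 + 1 = 2 * A + 4 := by ring
    rw [e8]
    exact_mod_cast e7

set_option maxHeartbeats 4000000 in
theorem sm_main (k A B U : ℕ) (hk : 1 ≤ k) (δ ε : ℝ) (hδ : 0 < δ) (hε : 0 < ε) :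
    ∃ N₀ : ℕ, ∀ N : ℕ, N₀ ≤ N →
    ∀ (x : Fin k → ℕ) (P : Fin k → Finset ℕ) (y : Fin k → ℕ),
    (∀ i, x i ≤ N ∧ (N : ℝ) ≤ x i * Real.log N ^ A) → (∀ i, Cond δ A N (P i) (y i)) →
    ∀ 𝒞 : Finset (Fin k → ℤ), (𝒞.card : ℝ) ≤ Real.log N ^ A → (∀ c ∈ 𝒞, ∀ i, |c i| ≤ B * N) →
    ∀ Bad : (Fin k → ℕ) → Prop, ∀ _ : DecidablePred Bad,
    (∀ v, Bad v → ∃ κ c : Fin k → ℤ, (∀ i, κ i ≠ 0 ∧ |κ i| * x i ≤ B * N) ∧ c ∈ 𝒞 ∧
       ¬ All ε A (2 * B) N (fun i => c i + κ i * (v i : ℤ))) →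
    (((Fintype.piFinset (fun i => SS (P i) (x i))).filter Bad).card : ℝ) ≤
      (∏ i, ((SS (P i) (x i)).card : ℝ)) / Real.log N ^ U := by
  classical
  obtain ⟨U', hU'⟩ : ∃ U', U' = U + (k * (A + 2) + A) + 1 := ⟨_, rfl⟩
  obtain ⟨n1, h1⟩ := all_F k (fun _ => SmC δ (A + 1) (2 * A + 3)) (fun _ U => sm_mom1 δ hδ (A + 1) (2 * A + 3) U) A (2 * B) U' hk ε hε
  obtain ⟨n2, h2⟩ := class_of A B δ
  obtain ⟨n3, h3⟩ := ev_L' (2 * B + 4)
  refine ⟨n1 + n2 + n3 + 1, fun N hN x P y hx hP 𝒞 h𝒞 hc Bad _ hBad => ?_⟩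
  have c1 := h1 N (by omega)
  have c2 := h2 N (by omega)
  have c3 := h3 N (by omega)
  obtain ⟨L, hL⟩ : ∃ L, L = Real.log (N : ℝ) := ⟨_, rfl⟩
  rw [← hL] at c3 h𝒞 ⊢
  have hB0 : (0 : ℝ) ≤ B := Nat.cast_nonneg _
  have hL4 : 4 ≤ L := by linarith
  have hL1 : 1 ≤ L := by linarith
  have hL0 : 0 < L := by linarith
  have hN0 : (0 : ℝ) < N := by exact_mod_cast (by omega : 0 < N)
  choose e he using fun i => bij_ex (SS (P i) (x i))
  obtain ⟨n, hn⟩ : ∃ n : Fin k → ℕ, n = fun i => (SS (P i) (x i)).card := ⟨_, rfl⟩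
  obtain ⟨PW, hPW⟩ : ∃ PW : ℝ, PW = ∏ i, ((SS (P i) (x i)).card : ℝ) := ⟨_, rfl⟩
  have hPW0 : 0 ≤ PW := by rw [hPW]; exact prod_nonneg fun i _ => Nat.cast_nonneg _
  obtain ⟨Q, hQ⟩ : ∃ Q, Q = Fintype.piFinset (fun i => Icc 1 (SS (P i) (x i)).card) := ⟨_, rfl⟩
  obtain ⟨R, hR⟩ : ∃ R : ℕ, R = ⌊B * L ^ A⌋₊ := ⟨_, rfl⟩
  obtain ⟨I, hI⟩ : ∃ I : Finset ((Fin k → ℤ) × (Fin k → ℤ)), I = Fintype.piFinset (fun _ => Icc (-(R : ℤ)) (R : ℤ)) ×ˢ 𝒞 := ⟨_, rfl⟩
  have hIcard : (I.card : ℝ) ≤ L ^ (k * (A + 2) + A) := by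
    rw [hI, card_product, Fintype.card_piFinset, prod_const, card_univ, Fintype.card_fin, Int.card_Icc]
    have e1 : ((R : ℤ) + 1 - -(R : ℤ)).toNat = 2 * R + 1 := by omega
    rw [e1]
    push_cast
    have hRL : (R : ℝ) ≤ B * L ^ A := by rw [hR]; exact Nat.floor_le (by positivity)
    have hLA : 1 ≤ L ^ A := one_le_pow₀ hL1
    have f3 : 2 * (R : ℝ) + 1 ≤ L ^ (A + 2) := by
      calc 2 * (R : ℝ) + 1 ≤ 2 * (B * L ^ A) + L ^ A := by linarith
        _ = (2 * B + 1) * L ^ A := by ring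
        _ ≤ L * L ^ A := mul_le_mul_of_nonneg_right (by linarith) (by positivity)
        _ = L ^ (A + 1) := by ring
        _ ≤ L ^ (A + 2) := pow_le_pow_right₀ hL1 (by omega)
    calc (2 * (R : ℝ) + 1) ^ k * (𝒞.card : ℝ) ≤ (L ^ (A + 2)) ^ k * L ^ A := by gcongr
      _ = L ^ (k * (A + 2) + A) := by rw [← pow_mul, ← pow_add]; congr 1; ring
  obtain ⟨T, hT⟩ : ∃ T : ℝ, T = 3 * (PW / L ^ U') := ⟨_, rfl⟩
  have hT0 : 0 ≤ T := by rw [hT]; positivity
  -- the transfer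
  have htr : ((Fintype.piFinset (fun i => SS (P i) (x i))).filter Bad).card ≤
      (Q.filter (fun q => Bad (fun i => e i (q i)))).card := by
    refine le_trans (card_le_card ?_) (card_image_le (f := fun q : Fin k → ℕ => (fun i => e i (q i))))
    intro v hv
    rw [mem_filter, Fintype.mem_piFinset] at hv
    choose r hr1 hr2 using fun i => (he i).2.2 (mem_coe.2 (hv.1 i))
    rw [mem_image]
    have e1 : (fun i => e i (r i)) = v := funext hr2
    refine ⟨r, mem_filter.2 ⟨?_, by rw [e1]; exact hv.2⟩, e1⟩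
    rw [hQ, Fintype.mem_piFinset]
    exact fun i => mem_coe.1 (hr1 i)
  have hbound := union_bd Q I (fun j q => (∀ i, j.1 i ≠ 0 ∧ |j.1 i| * x i ≤ B * N) ∧
      ¬ All ε A (2 * B) N (fun i => j.2 i + j.1 i * (e i (q i) : ℤ))) (fun q => Bad (fun i => e i (q i))) T (by
    rintro ⟨κ, c⟩ hj
    rw [hI, mem_product] at hj
    by_cases hκ : ∀ i, κ i ≠ 0 ∧ |κ i| * x i ≤ B * N
    · have d1 := c1 n (fun i m => c i + κ i * (e i m : ℤ)) (by
        intro i m hm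
        have f1 : e i m ∈ SS (P i) (x i) := by
          rw [hn] at hm
          exact (he i).1 (mem_coe.2 hm)
        have f2 : e i m ≤ x i := (mem_SS.1 f1).1.2
        have f3 := hc c hj.2 i
        have f4 : |κ i * (e i m : ℤ)| ≤ B * N := by
          rw [abs_mul, abs_of_nonneg (by positivity : (0 : ℤ) ≤ (e i m : ℤ))]
          refine le_trans ?_ (hκ i).2
          apply mul_le_mul_of_nonneg_left _ (abs_nonneg _)
          exact_mod_cast f2
        have f5 := abs_add_le (c i) (κ i * (e i m : ℤ))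
        push_cast
        linarith) (by
        intro i
        have f1 := c2 (x i) (P i) (y i) (hx i).1 (hx i).2 (hP i) (κ i) (c i) (hκ i).1 (hκ i).2 (e i) (he i)
        rw [hn]
        exact f1) (fun q => (∀ i, κ i ≠ 0 ∧ |κ i| * x i ≤ B * N) ∧
          ¬ All ε A (2 * B) N (fun i => c i + κ i * (e i (q i) : ℤ))) (Classical.decPred _) (fun q hq => hq.2)
      rw [← hL, hn] at d1
      rw [hT, hPW, hQ]
      refine le_trans (le_of_eq ?_) d1
      congr 2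
      ext q
      simp only [mem_filter]
    · have : Q.filter (fun q => (∀ i, κ i ≠ 0 ∧ |κ i| * x i ≤ B * N) ∧
          ¬ All ε A (2 * B) N (fun i => c i + κ i * (e i (q i) : ℤ))) = ∅ := by
        rw [filter_eq_empty_iff]
        intro q _ hq
        exact hκ hq.1
      simp only [this, card_empty, Nat.cast_zero]
      exact hT0) (by
    intro q _ hb
    obtain ⟨κ, c, hκ, hc', hA⟩ := hBad _ hb
    refine ⟨(κ, c), ?_, hκ, hA⟩
    rw [hI, mem_product]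
    refine ⟨?_, hc'⟩
    rw [Fintype.mem_piFinset]
    intro i
    have g1 := (hκ i).2
    have g2 := (hx i).2
    rw [← hL] at g2
    have hx0 : (0 : ℝ) < x i := by
      by_contra hcon
      have h0 : (x i : ℝ) = 0 := le_antisymm (not_lt.1 hcon) (Nat.cast_nonneg _)
      rw [h0, zero_mul] at g2
      linarith
    have e1 : ((κ i).natAbs : ℝ) * x i ≤ B * (x i * L ^ A) := by
      have e2 : (((κ i).natAbs * x i : ℕ) : ℝ) ≤ ((B * N : ℕ) : ℝ) := by
        have : (((κ i).natAbs * x i : ℕ) : ℤ) ≤ ((B * N : ℕ) : ℤ) := by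
          push_cast
          exact g1
        exact_mod_cast this
      push_cast at e2
      exact e2.trans (mul_le_mul_of_nonneg_left g2 (Nat.cast_nonneg _))
    have e2 : ((κ i).natAbs : ℝ) ≤ B * L ^ A := by
      have : ((κ i).natAbs : ℝ) * x i ≤ (B * L ^ A) * x i := by linarith
      exact le_of_mul_le_mul_right this hx0
    have e3 : (κ i).natAbs ≤ R := by rw [hR]; exact Nat.le_floor e2
    have e4 : -(R : ℤ) ≤ κ i ∧ κ i ≤ (R : ℤ) := by omega
    exact mem_Icc.2 e4)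
  have hfin : ((Q.filter (fun q => Bad (fun i => e i (q i)))).card : ℝ) ≤ PW / L ^ U := by
    refine hbound.trans ?_
    calc (I.card : ℝ) * T ≤ L ^ (k * (A + 2) + A) * T := mul_le_mul_of_nonneg_right hIcard hT0
      _ = 3 * L ^ (k * (A + 2) + A) * PW / L ^ U' := by rw [hT]; ring
      _ ≤ PW / L ^ U := by
          rw [div_le_div_iff₀ (by positivity) (by positivity)]
          calc 3 * L ^ (k * (A + 2) + A) * PW * L ^ U ≤ L * L ^ (k * (A + 2) + A) * PW * L ^ U := by gcongr; linarith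
            _ = PW * L ^ U' := by rw [hU', pow_succ L (U + (k * (A + 2) + A)), pow_add L U]; ring
  rw [← hPW]
  refine le_trans ?_ hfin
  exact_mod_cast htr

end Pool.Agent.D0H16.SF
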