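import Pool.Agent.TH935.TF4
import Pool.Agent.Y885.WI1

set_option autoImplicit false

/-! One coordinate with a slope, for families with a thin large spectrum. -/

namespace Pool.Agent.D0H16.SF
open Finset
open Pool.Agent.H807R2.Dav
open Pool.Agent.H373R2.T7
open Pool.Agent.TH935.TF
open Pool.Agent.TH935.LF (Dz)
open Pool.Agent.Y885 (TLaw tl_dif)

/-- the one coordinate estimate for a class of families (scale, number of members, members) -/
def Mom1 (𝓕 : ℕ → ℕ → (ℕ → ℤ) → Prop) (U : ℕ) : Prop :=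
  ∃ B0 : ℕ, ∀ E : ℕ, ∃ N0 : ℕ, ∀ N : ℕ, N0 ≤ N → ∀ (x : ℕ) (s : ℕ → ℤ), 1 ≤ x → (∀ m ∈ Icc 1 x, |s m| ≤ N) → 𝓕 N x s →
    ∀ z : ℕ, Real.log N ^ B0 ≤ z → (z : ℝ) ≤ Real.log N ^ E →
    ∀ α : ℤ, α ≠ 0 → ∀ y : ℕ, α.natAbs * y ≤ N →
    ∀ K : ℝ, 0 < K → ∀ G : ℕ → ℝ, (∀ q ∈ Icc 1 y, |G q| ≤ K) →
    ∑ m ∈ Icc 1 x, |∑ q ∈ Icc 1 y, G q * (LL (α * q + s m) - mdl z (α * q + s m))| ≤
      K * ((2 * N / Real.log N ^ U) * x)

/-- families of nearly minimal additive energy -/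
theorem en_mom1 (h C U : ℕ) :
    Mom1 (fun N x s => (energy h x s : ℝ) * N ≤ Real.log N ^ C * (x : ℝ) ^ (2 * h)) U := by
  obtain ⟨B0, h0⟩ := one_mom h C U 0
  refine ⟨B0, fun E => ?_⟩
  obtain ⟨N0, h1⟩ := h0 E
  exact ⟨N0, fun N hN x s _ hs hE z hz1 hz2 α hα y hy K hK G hG => h1 N hN x s hs hE z hz1 hz2 α hα y hy K hK G hG⟩

/-- dilating the argument -/
lemma slope (a y : ℕ) (ha : 1 ≤ a) (G F : ℕ → ℝ) :
    ∑ n ∈ Icc 1 (a * y), (if a ∣ n then G (n / a) else 0) * F n = ∑ q ∈ Icc 1 y, G q * F (a * q) := by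
  have h1 : ∑ n ∈ Icc 1 (a * y), (if a ∣ n then G (n / a) else 0) * F n =
      ∑ n ∈ (Icc 1 (a * y)).filter (fun n => a ∣ n), G (n / a) * F n := by
    rw [sum_filter]
    apply sum_congr rfl
    intro n _
    split_ifs <;> simp
  rw [h1]
  symm
  apply sum_bij (fun q _ => a * q)
  · intro q hq
    rw [mem_Icc] at hq
    rw [mem_filter, mem_Icc]
    refine ⟨⟨?_, Nat.mul_le_mul_left _ hq.2⟩, Dvd.intro q rfl⟩
    exact Nat.mul_pos ha hq.1
  · intro q _ q' _ h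
    exact Nat.eq_of_mul_eq_mul_left ha h
  · intro n hn
    rw [mem_filter, mem_Icc] at hn
    obtain ⟨⟨h2, h3⟩, q, rfl⟩ := hn
    refine ⟨q, ?_, rfl⟩
    rw [mem_Icc]
    constructor
    · by_contra hcon
      have : q = 0 := by omega
      rw [this, mul_zero] at h2
      omega
    · exact Nat.le_of_mul_le_mul_left h3 ha
  · intro q _
    rw [Nat.mul_div_cancel_left q ha]

/-- reflection of the argument -/
lemma refl_sum (y : ℕ) (F : ℕ → ℝ) : ∑ q ∈ Icc 1 y, F q = ∑ q ∈ Icc 1 y, F (y + 1 - q) := by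
  apply sum_bij' (fun q _ => y + 1 - q) (fun q _ => y + 1 - q)
  · intro q hq
    rw [mem_Icc] at hq ⊢
    omega
  · intro q hq
    rw [mem_Icc] at hq ⊢
    omega
  · intro q hq
    rw [mem_Icc] at hq
    omega
  · intro q hq
    rw [mem_Icc] at hq
    omega
  · intro q hq
    rw [mem_Icc] at hq
    congr 1
    omega

/-- both directions, at one level -/
lemma two_dirs (b E c U K z : ℕ) (T : ℝ) (hT : 0 ≤ T) (X : ℕ) (hX : 1 ≤ X) (hbK : 4 * X ≤ b ^ K)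
    (hone : ∀ (ι : Type) (Ω : Finset ι) (p : ι → ℝ) (Y : ι → ℤ), TLaw b E c (2 * U + 6) K Ω p Y →
      ∀ N : ℕ, (N : ℤ) ≤ (b : ℤ) ^ K → (∀ ω ∈ Ω, -(b : ℤ) ^ K < Y ω ∧ N + Y ω ≤ (b : ℤ) ^ K) →
      ∀ Q : ℝ, 0 < Q → ∀ G : ℕ → ℝ, (∀ n ∈ Icc 1 N, |G n| ≤ Q) →
      ∑ ω ∈ Ω, p ω * |∑ n ∈ Icc 1 N, G n * (lamI ((n : ℤ) + Y ω) - lamzI z ((n : ℤ) + Y ω))| ≤ Q * T)
    (ι : Type) (Ω : Finset ι) (p : ι → ℝ) (Y : ι → ℤ) (hlaw : TLaw b E c (2 * U + 6) K Ω p Y) (hY : ∀ ω ∈ Ω, |Y ω| ≤ X)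
    (α : ℤ) (hα : α ≠ 0) (y : ℕ) (hy : α.natAbs * y ≤ X) (Q : ℝ) (hQ : 0 < Q) (G : ℕ → ℝ) (hG : ∀ q ∈ Icc 1 y, |G q| ≤ Q) :
    ∑ ω ∈ Ω, p ω * |∑ q ∈ Icc 1 y, G q * (lamI (α * q + Y ω) - lamzI z (α * q + Y ω))| ≤ Q * T := by
  rcases Nat.eq_zero_or_pos y with hy0 | hy0
  · subst hy0
    simp only [Order.lt_one_iff, Nat.lt_one_iff, Icc_eq_empty_of_lt, sum_empty, abs_zero, mul_zero, sum_const_zero]
    positivity
  obtain ⟨a, ha⟩ : ∃ a, a = α.natAbs := ⟨_, rfl⟩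
  have ha1 : 1 ≤ a := by omega
  rw [← ha] at hy
  have hax : a ≤ X := (Nat.le_mul_of_pos_right _ hy0).trans hy
  have hbe : ((b ^ K : ℕ) : ℤ) = (b : ℤ) ^ K := by push_cast; ring
  have hbK' : 4 * (X : ℤ) ≤ (b : ℤ) ^ K := by rw [← hbe]; exact_mod_cast hbK
  have hyX : ((a * y : ℕ) : ℤ) ≤ X := by exact_mod_cast hy
  have haX : (a : ℤ) ≤ X := by exact_mod_cast hax
  have hX1 : (1 : ℤ) ≤ X := by exact_mod_cast hX
  have ha0 : (1 : ℤ) ≤ a := by exact_mod_cast ha1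
  have hbd : ∀ G' : ℕ → ℝ, (∀ q ∈ Icc 1 y, |G' q| ≤ Q) → ∀ n ∈ Icc 1 (a * y), |if a ∣ n then G' (n / a) else 0| ≤ Q := by
    intro G' hG' n hn
    rw [mem_Icc] at hn
    split_ifs with h
    · obtain ⟨q, rfl⟩ := h
      rw [Nat.mul_div_cancel_left q ha1]
      apply hG'
      rw [mem_Icc]
      constructor
      · by_contra hcon
        have : q = 0 := by omega
        rw [this, mul_zero] at hn
        omega
      · exact Nat.le_of_mul_le_mul_left hn.2 ha1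
    · rw [abs_zero]
      exact hQ.le
  rcases lt_or_gt_of_ne hα with hneg | hpos
  · -- negative slope
    have hα' : α = -(a : ℤ) := by omega
    have h1 := hone ι Ω p (fun ω => Y ω + (-((a : ℤ) * (y + 1)))) (hlaw.add _) (a * y) (by linarith) (by
      intro ω hω
      have h2 := abs_le.1 (hY ω hω)
      push_cast at hyX ⊢
      constructor <;> nlinarith) Q hQ (fun n => if a ∣ n then (fun q => G (y + 1 - q)) (n / a) else 0)
      (hbd (fun q => G (y + 1 - q)) (by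
        intro q hq
        rw [mem_Icc] at hq
        exact hG _ (mem_Icc.2 (by omega))))
    refine le_trans (le_of_eq ?_) h1
    apply sum_congr rfl
    intro ω _
    congr 2
    rw [slope a y ha1 (fun q => G (y + 1 - q)) (fun n => lamI ((n : ℤ) + (Y ω + (-((a : ℤ) * (y + 1))))) -
      lamzI z ((n : ℤ) + (Y ω + (-((a : ℤ) * (y + 1))))))]
    rw [refl_sum]
    apply sum_congr rfl
    intro q hq
    rw [mem_Icc] at hq
    have e1 : α * ((y + 1 - q : ℕ) : ℤ) + Y ω = ((a * q : ℕ) : ℤ) + (Y ω + (-((a : ℤ) * (y + 1)))) := by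
      rw [Nat.cast_sub (by omega), hα']
      push_cast
      ring
    rw [e1]
  · have hα' : α = (a : ℤ) := by omega
    have h1 := hone ι Ω p Y hlaw (a * y) (by linarith) (by
      intro ω hω
      have h2 := abs_le.1 (hY ω hω)
      constructor <;> linarith) Q hQ (fun n => if a ∣ n then G (n / a) else 0) (hbd G hG)
    refine le_trans (le_of_eq ?_) h1
    apply sum_congr rfl
    intro ω _
    congr 2
    rw [slope a y ha1 G (fun n => lamI ((n : ℤ) + Y ω) - lamzI z ((n : ℤ) + Y ω))]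
    apply sum_congr rfl
    intro q _
    have e1 : α * (q : ℤ) + Y ω = ((a * q : ℕ) : ℤ) + Y ω := by
      rw [hα']
      push_cast
      ring
    rw [e1]

/-- the families with a thin large spectrum at the level which belongs to the scale -/
def ThinF (b E c V : ℕ) (N x : ℕ) (s : ℕ → ℤ) : Prop :=
  TLaw b E c V (Nat.clog b (4 * N)) (Icc 1 x) (fun _ => 1 / (x : ℝ)) s

theorem tl_mom1 (b E c U : ℕ) (hb : 2 ≤ b) (hE : 1 ≤ E) : Mom1 (ThinF b E c (2 * (U + 1) + 6)) U := by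
  obtain ⟨B, hB⟩ := tl_dif b E c hb hE (U + 1)
  refine ⟨B + 1, fun Ez => ?_⟩
  obtain ⟨K₀, h0⟩ := hB Ez
  obtain ⟨n1, h1⟩ := ev_L' (2 ^ B + 4 * b * (b : ℝ) ^ (U + 1) + 2)
  refine ⟨n1 + b ^ K₀ + 4 * b + 2, fun N hN x s hx hs hF z hz1 hz2 α hα y hy Q hQ G hG => ?_⟩
  have hL := h1 N (by omega)
  obtain ⟨L, hLd⟩ : ∃ L, L = Real.log (N : ℝ) := ⟨_, rfl⟩
  rw [← hLd] at hL hz1 hz2 ⊢
  have hp2 : (0 : ℝ) < 2 ^ B := by positivity
  have hbr : (2 : ℝ) ≤ b := by exact_mod_cast hb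
  have hpb : (0 : ℝ) < 4 * b * (b : ℝ) ^ (U + 1) := by positivity
  have hL2 : 2 ≤ L := by linarith
  have hL1 : 1 ≤ L := by linarith
  have hL0 : 0 < L := by linarith
  have hNr : (0 : ℝ) < N := by exact_mod_cast (by omega : 0 < N)
  obtain ⟨K, hK⟩ : ∃ K, K = Nat.clog b (4 * N) := ⟨_, rfl⟩
  unfold ThinF at hF
  rw [← hK] at hF
  have hbK : 4 * N ≤ b ^ K := by rw [hK]; exact Nat.le_pow_clog hb _
  have hK0 : 0 < K := by rw [hK]; exact Nat.clog_pos hb (by omega)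
  have hbK2 : b ^ K ≤ 4 * b * N := by
    have b2 : b ^ (K - 1) < 4 * N := by rw [hK]; exact Nat.pow_pred_clog_lt_self hb (by omega)
    have b3 : b ^ K = b * b ^ (K - 1) := by rw [← pow_succ']; congr 1; omega
    rw [b3]
    calc b * b ^ (K - 1) ≤ b * (4 * N) := Nat.mul_le_mul_left _ b2.le
      _ = _ := by ring
  have hKK₀ : K₀ ≤ K := by
    have : b ^ K₀ ≤ b ^ K := by omega
    exact (Nat.pow_le_pow_iff_right (by omega : 1 < b)).1 this
  obtain ⟨LX, hLX⟩ : ∃ LX, LX = Real.log ((b ^ K : ℕ) : ℝ) := ⟨_, rfl⟩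
  have hLLX : L ≤ LX := by
    rw [hLd, hLX]
    apply Real.log_le_log hNr
    exact_mod_cast (by omega : N ≤ b ^ K)
  have hLX2 : LX ≤ 2 * L := by
    have e1 : ((b ^ K : ℕ) : ℝ) ≤ (N : ℝ) ^ 2 := by
      have : b ^ K ≤ N ^ 2 := by
        refine hbK2.trans ?_
        rw [sq]
        exact Nat.mul_le_mul_right _ (by omega)
      exact_mod_cast this
    have e2 : (0 : ℝ) < ((b ^ K : ℕ) : ℝ) := by exact_mod_cast (by omega : 0 < b ^ K)
    have e3 := Real.log_le_log e2 e1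
    rw [Real.log_pow, ← hLd, ← hLX] at e3
    exact_mod_cast e3
  have hzB : LX ^ B ≤ z := by
    refine le_trans ?_ hz1
    calc LX ^ B ≤ (2 * L) ^ B := pow_le_pow_left₀ (by linarith) hLX2 _
      _ = 2 ^ B * L ^ B := mul_pow _ _ _
      _ ≤ L * L ^ B := mul_le_mul_of_nonneg_right (by linarith) (by positivity)
      _ = L ^ (B + 1) := by ring
  have hzE : (z : ℝ) ≤ LX ^ Ez := hz2.trans (pow_le_pow_left₀ hL0.le hLLX _)
  have hz : 2 ≤ z := by
    have h5 : (2 : ℝ) ≤ z := by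
      refine le_trans ?_ hz1
      calc (2 : ℝ) ≤ L := hL2
        _ ≤ L ^ (B + 1) := le_self_pow₀ hL1 (by omega)
    exact_mod_cast h5
  obtain ⟨T, hT⟩ : ∃ T : ℝ, T = ((b ^ K : ℕ) : ℝ) / (K : ℝ) ^ (U + 1) := ⟨_, rfl⟩
  have hone := h0 K hKK₀ z (by rw [← hLX]; exact hzB) (by rw [← hLX]; exact hzE)
  rw [← hT] at hone
  have hKr : (0 : ℝ) < K := by exact_mod_cast hK0
  have hT0 : 0 ≤ T := by rw [hT]; positivity
  have hTN : T ≤ N / L ^ U := by
    have e1 : L ≤ b * K := by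
      have e2 : LX = K * Real.log b := by rw [hLX]; push_cast; rw [Real.log_pow]
      have e3 : Real.log (b : ℝ) ≤ b := (Real.log_le_sub_one_of_pos (by linarith)).trans (by linarith)
      calc L ≤ LX := hLLX
        _ = K * Real.log b := e2
        _ ≤ K * b := mul_le_mul_of_nonneg_left e3 hKr.le
        _ = b * K := mul_comm _ _
    have e4 : ((b ^ K : ℕ) : ℝ) ≤ 4 * b * N := by exact_mod_cast hbK2
    have e5 : L ^ (U + 1) ≤ (b : ℝ) ^ (U + 1) * (K : ℝ) ^ (U + 1) := by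
      rw [← mul_pow]
      exact pow_le_pow_left₀ hL0.le e1 _
    rw [hT, div_le_div_iff₀ (by positivity) (by positivity)]
    have e6 : (4 * b * (b : ℝ) ^ (U + 1)) * L ^ U ≤ L ^ (U + 1) := by
      refine le_trans (mul_le_mul_of_nonneg_right (show (4 * b * (b : ℝ) ^ (U + 1)) ≤ L by linarith) (by positivity)) ?_
      exact le_of_eq (by ring)
    have e7 : (4 * b * (b : ℝ) ^ (U + 1)) * L ^ U ≤ (b : ℝ) ^ (U + 1) * (K : ℝ) ^ (U + 1) := e6.trans e5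
    have hbU : (0 : ℝ) < (b : ℝ) ^ (U + 1) := by positivity
    have e8 : 4 * b * L ^ U ≤ (K : ℝ) ^ (U + 1) := by
      have : (b : ℝ) ^ (U + 1) * (4 * b * L ^ U) ≤ (b : ℝ) ^ (U + 1) * (K : ℝ) ^ (U + 1) := by
        refine le_trans (le_of_eq ?_) e7
        ring
      exact le_of_mul_le_mul_left this hbU
    calc ((b ^ K : ℕ) : ℝ) * L ^ U ≤ (4 * b * N) * L ^ U := mul_le_mul_of_nonneg_right e4 (by positivity)
      _ = N * (4 * b * L ^ U) := by ring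
      _ ≤ N * (K : ℝ) ^ (U + 1) := mul_le_mul_of_nonneg_left e8 hNr.le
  have d1 := two_dirs b E c (U + 1) K z T hT0 N (by omega) hbK hone ℕ (Icc 1 x) (fun _ => 1 / (x : ℝ)) s hF hs α hα y hy Q hQ G hG
  have d2 := two_dirs b E c (U + 1) K z T hT0 N (by omega) hbK hone ℕ (Icc 1 x) (fun _ => 1 / (x : ℝ)) (fun m => -s m) hF.neg
    (fun m hm => by rw [abs_neg]; exact hs m hm) (-α) (neg_ne_zero.2 hα) y (by rw [Int.natAbs_neg]; exact hy) Q hQ G hG
  rw [← mul_sum] at d1 d2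
  have hxr : (0 : ℝ) < x := by exact_mod_cast hx
  have f1 : ∀ A : ℝ, 1 / (x : ℝ) * A ≤ Q * T → A ≤ Q * (N / L ^ U) * x := by
    intro A hA
    rw [one_div, inv_mul_le_iff₀ hxr] at hA
    refine hA.trans ?_
    calc (x : ℝ) * (Q * T) ≤ x * (Q * (N / L ^ U)) := by gcongr
      _ = _ := by ring
  have g1 := f1 _ d1
  have g2 := f1 _ d2
  have h3 : ∀ m ∈ Icc 1 x, |∑ q ∈ Icc 1 y, G q * (LL (α * q + s m) - mdl z (α * q + s m))| ≤
      |∑ q ∈ Icc 1 y, G q * (lamI (α * q + s m) - lamzI z (α * q + s m))| +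
      |∑ q ∈ Icc 1 y, G q * (lamI (-α * q + -s m) - lamzI z (-α * q + -s m))| := by
    intro m _
    refine le_trans (le_of_eq ?_) (abs_add_le _ _)
    rw [← sum_add_distrib]
    congr 1
    apply sum_congr rfl
    intro q _
    rw [LL_sub z hz, Dz_one, Dz_one, show -α * (q : ℤ) + -s m = -(α * q + s m) by ring]
    ring
  refine (sum_le_sum h3).trans ?_
  rw [sum_add_distrib]
  calc _ ≤ Q * (N / L ^ U) * x + Q * (N / L ^ U) * x := add_le_add g1 g2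
    _ = _ := by ring

end Pool.Agent.D0H16.SF
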