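import Pool.Agent.D0H16.SF.Mom

set_option autoImplicit false

/-! The first moment over products of families. -/

namespace Pool.Agent.D0H16.SF
open Finset
open Pool.Agent.H373R2.T7
open Pool.Agent.TH935.TF

set_option maxHeartbeats 4000000 in
/-- products of families -/
theorem prodF (k U : ℕ) (𝓕 : Fin k → ℕ → ℕ → (ℕ → ℤ) → Prop) (hM : ∀ i, Mom1 (𝓕 i) (U + k + 2)) : ∃ B0 : ℕ, ∀ E : ℕ, ∃ N0 : ℕ, ∀ N : ℕ, N0 ≤ N →
    ∀ (x : Fin k → ℕ) (s : Fin k → ℕ → ℤ), (∀ i, 1 ≤ x i) → (∀ i, ∀ m ∈ Icc 1 (x i), |s i m| ≤ N) →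
    (∀ i, 𝓕 i N (x i) (s i)) →
    ∀ z : ℕ, Real.log N ^ B0 ≤ z → (z : ℝ) ≤ Real.log N ^ E →
    ∀ α : Fin k → ℤ, (∀ i, α i ≠ 0) → ∀ y : ℕ, (∀ i, (α i).natAbs * y ≤ N) →
    ∀ w : ℕ → ℝ, (∀ n ∈ Icc 1 y, |w n| ≤ Real.log N) →
    ∑ m ∈ Fintype.piFinset (fun i => Icc 1 (x i)),
      |∑ n ∈ Icc 1 y, w n * (∏ i, LL (α i * n + s i (m i)) - ∏ i, mdl z (α i * n + s i (m i)))| ≤
      (N / Real.log N ^ U) * ∏ i, (x i : ℝ) := by
  classical
  choose Bi hBi using hM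
  obtain ⟨B0, hB0⟩ : ∃ B0, B0 = ∑ i, Bi i := ⟨_, rfl⟩
  have hBle : ∀ i, Bi i ≤ B0 := fun i => by rw [hB0]; exact single_le_sum (fun _ _ => Nat.zero_le _) (mem_univ i)
  refine ⟨B0 + 1, fun E => ?_⟩
  choose ni hni using fun i => hBi i E
  obtain ⟨n1, hn1⟩ : ∃ n1, n1 = ∑ i, ni i := ⟨_, rfl⟩
  have hnle : ∀ i, ni i ≤ n1 := fun i => by rw [hn1]; exact single_le_sum (fun _ _ => Nat.zero_le _) (mem_univ i)
  obtain ⟨n2, h2⟩ := ev_L' (k * 2 ^ k * 2 + 2)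
  obtain ⟨n3, h3⟩ := Vz_inv_small E
  refine ⟨n1 + n2 + n3 + 2, fun N hN x s hx hs hE z hz1 hz2 α hα y hy w hw => ?_⟩
  have hL := h2 N (by omega)
  obtain ⟨L, hLd⟩ : ∃ L, L = Real.log (N : ℝ) := ⟨_, rfl⟩
  have hq : (0 : ℝ) ≤ k * 2 ^ k * 2 := by positivity
  have c1 := fun i => hni i N (by have := hnle i; omega)
  have c3 := h3 N (by omega) z
  rw [← hLd] at hL c3 hz1 hz2 hw ⊢
  simp only [← hLd] at c1
  have hL1 : 1 ≤ L := by linarith
  have hL2 : 2 ≤ L := by linarith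
  have hL0 : 0 < L := by linarith
  have hz1' : 1 ≤ z := by
    have : (1 : ℝ) ≤ z := (one_le_pow₀ hL1).trans hz1
    exact_mod_cast this
  have hV := c3 hz1' hz2
  have hN2 : (2 : ℝ) ≤ N := by exact_mod_cast (by omega : 2 ≤ N)
  have hN0 : (0 : ℝ) < N := by linarith
  have hval : ∀ i, ∀ n ∈ Icc 1 y, ∀ v ∈ Icc 1 (x i), (α i * n + s i v).natAbs ≤ 2 * N := by
    intro i n hn v hv
    rw [mem_Icc] at hn
    have e1 := hs i v hv
    have e2 : (α i).natAbs * n ≤ N := (Nat.mul_le_mul_left _ hn.2).trans (hy i)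
    have e3 : (α i * (n : ℤ)).natAbs ≤ N := by rw [Int.natAbs_mul, Int.natAbs_natCast]; exact e2
    have e4 : (s i v).natAbs ≤ N := by
      have : ((s i v).natAbs : ℤ) ≤ N := by rw [Int.natCast_natAbs]; exact e1
      exact_mod_cast this
    have := Int.natAbs_add_le (α i * (n : ℤ)) (s i v)
    omega
  have hlog2N : Real.log ((2 * N : ℕ) : ℝ) ≤ 2 * L := by
    push_cast
    have e1 : (2 : ℝ) * N ≤ N ^ 2 := by nlinarith
    have e2 := Real.log_le_log (by positivity) e1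
    rw [Real.log_pow, ← hLd] at e2
    exact_mod_cast e2
  have hP : ∀ i, ∀ n ∈ Icc 1 y, ∀ v ∈ Icc 1 (x i), |LL (α i * n + s i v)| ≤ 2 * L := by
    intro i n hn v hv
    rw [abs_of_nonneg (LL_nonneg _)]
    exact (LL_le _ (2 * N) (by omega) (hval i n hn v hv)).trans hlog2N
  have hQ : ∀ i, ∀ n ∈ Icc 1 y, ∀ v ∈ Icc 1 (x i), |mdl z (α i * n + s i v)| ≤ 2 * L := by
    intro i n hn v hv
    rw [abs_of_nonneg (mdl_nonneg _ _)]
    exact (mdl_le _ _).trans (by linarith)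
  have key := tele y x hx (fun i n v => LL (α i * n + s i v)) (fun i n v => mdl z (α i * n + s i v)) (2 * L)
    (2 * N / L ^ (U + k + 2)) (by linarith) (by positivity) hP hQ
    (by
      intro i K hK G hG
      exact c1 i (x i) (s i) (hx i) (hs i) (hE i) z ((pow_le_pow_right₀ hL1 (by have := hBle i; omega)).trans hz1) hz2 (α i) (hα i) y (hy i) K hK G hG)
    univ L hL0 (fun n _ => w n) (fun n hn m _ => hw n hn) (fun _ _ _ _ _ => rfl)
  refine key.trans ?_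
  rw [card_univ, Fintype.card_fin]
  apply mul_le_mul_of_nonneg_right _ (prod_nonneg fun i _ => Nat.cast_nonneg _)
  have e : (k : ℝ) * (L * (2 * L) ^ k * (2 * N / L ^ (U + k + 2))) = (k * 2 ^ k * 2 / L) * (N / L ^ U) := by
    rw [mul_pow, show U + k + 2 = U + k + 1 + 1 by ring, pow_succ L (U + k + 1), pow_succ L (U + k), pow_add L U k]
    field_simp
  rw [e]
  have h5 : (k * 2 ^ k * 2 / L : ℝ) ≤ 1 := by
    rw [div_le_one hL0]
    linarith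
  calc (k * 2 ^ k * 2 / L : ℝ) * (N / L ^ U) ≤ 1 * (N / L ^ U) := mul_le_mul_of_nonneg_right h5 (by positivity)
    _ = _ := one_mul _


end Pool.Agent.D0H16.SF
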